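import Pool.Agent.Helper30.KC.GoalsI
import Pool.Agent.Helper28.KC.CN2

/-!
# Project KI, packet CA (case A)
-/

set_option autoImplicit false

namespace Pool.Agent.Helper16.KI

open scoped Classical
open Finset Pool.Agent.Helper94.KC Pool.Agent.Helper30.KC Pool.Agent.Helper28.KC

theorem mem_supp_of_wed {V : Type} {G : SimpleGraph V} {x y : V} (w : G.Walk x y)
    {e : Finset V} (he : e ∈ wed w) {v : V} (hv : v ∈ e) : v ∈ w.support := by
  unfold wed at he
  rw [List.mem_toFinset, List.mem_map] at he
  obtain ⟨s, hs, rfl⟩ := he
  rw [Sym2.mem_toFinset] at hv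
  induction s using Sym2.ind with
  | _ a b =>
    rw [Sym2.mem_iff] at hv
    rcases hv with rfl | rfl
    · exact w.fst_mem_support_of_mem_edges hs
    · exact w.snd_mem_support_of_mem_edges hs

theorem foldr_subset {V : Type} {T : Finset (Finset V)} (L : List (Finset (Finset V)))
    (h : ∀ D ∈ L, D ⊆ T) : L.foldr symmDiff ∅ ⊆ T := by
  induction L with
  | nil => exact empty_subset _
  | cons D L ih =>
    rw [List.foldr_cons]
    intro t ht
    rcases Finset.mem_symmDiff.1 ht with h1 | h1
    · exact h D List.mem_cons_self h1.1
    · exact ih (fun D' hD' => h D' (List.mem_cons_of_mem _ hD')) h1.1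

theorem pCA (hBB : StmtBB) (hAX : StmtAX) (hCN2 : StmtCN2) (hEV : StmtEV) : StmtCA := by
  intro V _ T W ρ h L hT hHD hEW hh HU hL hcov
  obtain ⟨hadd, hev, -, hcyc, -, -⟩ := hEV V T hT
  let Nf : Finset (Finset V) → Finset (Finset V) := fun z =>
    z.filter (fun e => ∃ v ∈ e, ρ + 2 < (sk T).dist h v)
  have key : ∀ n : ℕ, ∀ z : Finset (Finset V), (Nf z).card = n → z ⊆ ed T → Even2 z →
      (∀ e ∈ z, ∀ v ∈ e, ρ + 2 < (sk T).dist h v → v ∈ W) → Bounds T z := by
    intro n
    induction n using Nat.strong_induction_on with
    | _ n ih =>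
      intro z hzn hz hz2 hzW
      by_contra hzb
      obtain ⟨x, w, hw, hwz, hwb⟩ := hCN2 V T hT z hz hz2 hzb
      obtain ⟨hw2, -, hwe⟩ := hcyc x w hw
      by_cases hfar : ∃ e ∈ wed w, ∃ v ∈ e, ρ + 2 < (sk T).dist h v
      · obtain ⟨e₀, he₀, v, hv, hdv⟩ := hfar
        have hvW : v ∈ W := hzW e₀ (hwz he₀) v hv hdv
        -- all neighbours of `v` are in `W`
        have hnb : ∀ u, (sk T).Adj v u → u ∈ W := by
          intro u hu
          by_contra huW
          obtain ⟨hne, t, ht, hvt, hut⟩ := hu
          have hNK := HU t ht ⟨v, mem_inter.2 ⟨hvt, hvW⟩⟩ u hut huW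
          unfold NK at hNK
          rw [mem_filter] at hNK
          obtain ⟨-, h', hr, -, hadj⟩ := hNK
          have h1 : (sk T).dist h h' ≤ ρ := hHD h h' hr
          have hadj2 : (sk T).Adj u v := ⟨hne.symm, t, ht, hut, hvt⟩
          have h2 : (sk T).dist h' u ≤ 1 := by
            have := SimpleGraph.dist_le hadj.symm.toWalk
            simpa using this
          have h3 : (sk T).dist u v ≤ 1 := by
            have := SimpleGraph.dist_le hadj2.toWalk
            simpa using this
          have h4 := hT.conn.dist_triangle (u := h) (v := h') (w := v)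
          have h5 := hT.conn.dist_triangle (u := h') (v := u) (w := v)
          omega
        obtain ⟨t, ht, hvt⟩ := hT.cover v
        have htW : t ∈ trW T W := by
          unfold trW
          rw [mem_filter]
          refine ⟨ht, ?_⟩
          intro u hut
          by_cases huv : u = v
          · rw [huv]; exact hvW
          · exact hnb u ⟨fun h => huv h.symm, t, ht, hvt, hut⟩
        obtain ⟨D, hD, htD⟩ := hcov t htW
        obtain ⟨y, w', hw', -, hsupp, hdisc⟩ := hL D hD
        obtain ⟨-, -, hw'e⟩ := hcyc y w' hw'
        have hvw' : v ∉ w'.support := by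
          intro hvs
          have := hsupp v hvs
          omega
        obtain ⟨A, hA, Bs, hB, hAB2, hABb, hAe⟩ := hAX V T hT x w hw hwb v
          (mem_supp_of_wed w he₀ hv) D y w' hw' hdisc ⟨t, htD, hvt⟩ hvw'
        set z' := symmDiff (wed w) (symmDiff A Bs) with hz'
        -- description of `z'`
        have hz'm : ∀ e ∈ z', e ∈ Bs ∨ (e ∈ wed w ∧ e ∉ A) := by
          intro e he
          rw [hz', Finset.mem_symmDiff, Finset.mem_symmDiff] at he
          by_cases h1 : e ∈ Bs
          · exact Or.inl h1
          · right
            rcases he with ⟨h2, h3⟩ | ⟨h2, h3⟩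
            · refine ⟨h2, ?_⟩
              intro h4
              exact h3 (Or.inl ⟨h4, h1⟩)
            · rcases h2 with ⟨h4, _⟩ | ⟨h4, _⟩
              · exact absurd (hA h4) h3
              · exact absurd h4 h1
        have hnear : ∀ e ∈ Bs, ∀ u ∈ e, (sk T).dist h u ≤ ρ + 1 := fun e he u hu =>
          hsupp u (mem_supp_of_wed w' (hB he) hu)
        have hz'b : Bounds T z' := by
          refine ih (Nf z').card ?_ z' rfl ?_ (hev _ _ hw2 hAB2) ?_
          · rw [← hzn]
            refine Finset.card_lt_card ?_
            rw [Finset.ssubset_iff_of_subset]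
            · refine ⟨e₀, mem_filter.2 ⟨hwz he₀, v, hv, hdv⟩, ?_⟩
              intro hc
              rw [mem_filter] at hc
              rcases hz'm e₀ hc.1 with h1 | h1
              · have := hnear e₀ h1 v hv
                omega
              · exact h1.2 (hAe e₀ he₀ hv)
            · intro e he
              rw [mem_filter] at he
              obtain ⟨he1, u, hu, hdu⟩ := he
              rcases hz'm e he1 with h1 | h1
              · have := hnear e h1 u hu
                omega
              · exact mem_filter.2 ⟨hwz h1.1, u, hu, hdu⟩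
          · intro e he
            rcases hz'm e he with h1 | h1
            · exact hw'e (hB h1)
            · exact hwe h1.1
          · intro e he u hu hdu
            rcases hz'm e he with h1 | h1
            · have := hnear e h1 u hu
              omega
            · exact hzW e (hwz h1.1) u hu hdu
        apply hwb
        have h1 := bounds_symmDiff hadd hz'b hABb
        rw [hz', symmDiff_symmDiff_cancel_right] at h1
        exact h1
      · push Not at hfar
        obtain ⟨L', hL', hnear'⟩ := hBB V T hT h (ρ + 2) (by
          have : 2 * (ρ + 2) + 2 = 2 * ρ + 6 := by ring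
          rw [this]; exact hEW) (wed w) hwe hw2 hfar
        apply hwb
        refine ⟨L'.foldr symmDiff ∅, foldr_subset L' ?_, hL'⟩
        intro D hD
        obtain ⟨_, _, _, _, _, hdisc⟩ := hnear' D hD
        exact hdisc.sub
  intro z hz hz2 hzW
  exact key _ z rfl hz hz2 hzW

end Pool.Agent.Helper16.KI
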